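import Pool.Agent.Q290.SC.Stm

/-!
# Project SC, job IND: the assembly of the reduction
-/

set_option autoImplicit false

namespace Pool.Agent.Q217.SC

open Pool.Agent.H29R2.MG Pool.Agent.Q290.SC

theorem ind : S_NT → S_RZ → S_RA → S_RB → S_RC → S_FIXF → S_IND := by
  intro _ hRZ hRA hRB hRC hFIXF g q hq i S hi
  induction hn : S.card using Nat.strong_induction_on generalizing S with
  | _ n ih =>
    intro M hM hFx
    by_cases hS : ∃ k ∈ S, k ≠ i
    · obtain ⟨k, hk, hki⟩ := hS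
      have hik : i ≠ k := fun h => hki h.symm
      -- the general step
      have hsup : ∀ N : SpG g, Fx S N → Sup S (ac N (ve k)) := fun N hN => (sup_ve hk).act hN
      have hcong : ∀ N ∈ Ga g q, ∀ j, q ∣ ac N (ve k) j - ve k j := fun N hN j => hN (ve k) j
      have hprim : ∃ z, om (ac M (ve k)) z = 1 := by
        refine ⟨ac M (vf k), ?_⟩
        rw [om_ac, om_ve]
        simp [vf]
      obtain ⟨X1, hX1, α, z, hz, hα⟩ := hRZ g q S k i hq hk hi hik (ac M (ve k)) (hsup M hFx)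
        (hcong M hM) hprim
      have hF1 : Fx S (X1 * M) := (KS_Fx hX1).mul hFx
      have hG1 : X1 * M ∈ Ga g q := mul_mem (KS_Ga hX1) hM
      obtain ⟨X2, hX2, h2⟩ := hRA g q S k i hq hk hi hik (ac (X1 * M) (ve k)) (hsup _ hF1)
        (hcong _ hG1) ⟨α, z, hz, hα⟩
      have hF2 : Fx S (X2 * (X1 * M)) := (KS_Fx hX2).mul hF1
      have hG2 : X2 * (X1 * M) ∈ Ga g q := mul_mem (KS_Ga hX2) hG1
      obtain ⟨X3, hX3, h3⟩ := hRB g q S k i hk hi hik (ac (X2 * (X1 * M)) (ve k)) (hsup _ hF2)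
        (hcong _ hG2) h2
      have hF3 : Fx S (X3 * (X2 * (X1 * M))) := (KS_Fx hX3).mul hF2
      have hG3 : X3 * (X2 * (X1 * M)) ∈ Ga g q := mul_mem (KS_Ga hX3) hG2
      obtain ⟨X4, hX4, h4⟩ := hRC g q S k i hk hi hik (ac (X3 * (X2 * (X1 * M))) (ve k))
        (hsup _ hF3) (hcong _ hG3) h3
      have hF4 : Fx S (X4 * (X3 * (X2 * (X1 * M)))) := (KS_Fx hX4).mul hF3
      have hG4 : X4 * (X3 * (X2 * (X1 * M))) ∈ Ga g q := mul_mem (KS_Ga hX4) hG3
      obtain ⟨X5, hX5, h5, h6, _⟩ := hFIXF g q S k hk _ hG4 hF4 h4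
      have hF5 : Fx S (X5 * (X4 * (X3 * (X2 * (X1 * M))))) := (KS_Fx hX5).mul hF4
      have hG5 : X5 * (X4 * (X3 * (X2 * (X1 * M)))) ∈ Ga g q := mul_mem (KS_Ga hX5) hG4
      have hF6 : Fx (S.erase k) (X5 * (X4 * (X3 * (X2 * (X1 * M))))) := by
        intro j hj
        by_cases hjk : j = k
        · subst hjk
          exact ⟨h5, h6⟩
        · exact hF5 j (fun h => hj (Finset.mem_erase.2 ⟨hjk, h⟩))
      have hi' : i ∈ S.erase k := Finset.mem_erase.2 ⟨hik, hi⟩
      have hcard : (S.erase k).card < n := by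
        rw [← hn]
        exact Finset.card_erase_lt_of_mem hk
      obtain ⟨X6, hX6, h7⟩ := ih (S.erase k).card hcard (S.erase k) hi' rfl _ hG5 hF6
      refine ⟨X6 * (X5 * (X4 * (X3 * (X2 * X1)))), ?_, ?_⟩
      · exact mul_mem (KS_mono (Finset.erase_subset k S) hX6)
          (mul_mem hX5 (mul_mem hX4 (mul_mem hX3 (mul_mem hX2 hX1))))
      · have e : X6 * (X5 * (X4 * (X3 * (X2 * X1)))) * M =
            X6 * (X5 * (X4 * (X3 * (X2 * (X1 * M))))) := by group
        rw [e]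
        exact h7
    · push Not at hS
      refine ⟨1, one_mem _, ?_⟩
      rw [one_mul]
      intro j hj
      refine hFx j (fun h => hj ?_)
      rw [Finset.mem_singleton]
      exact hS j h

end Pool.Agent.Q217.SC
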